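import Pool.Agent.W2helper68.SP.Q2

/-!
# Question 2 of `MP_096b72_nt`: `S_p = ∑_{k<p} C(2k,k)^2 C(3k,k) / (-192)^k` modulo `p^2`

Proof: Clausen's identity for the series of `(3k)!/(k!)^3` (by interpolation in the parameter of
the identity for the Legendre type polynomials) gives, modulo `p^2`,
`∑_{k<p} C(2k,k)^2 C(3k,k) (x (1 - 27 x))^k = (∑_{k<p} C(2k,k) C(3k,k) x^k)^2`; take `x = 1/24`.
For `p = 1 (mod 3)` the sum on the right is `C(2(p-1)/3, (p-1)/3) = ± (x - p/x)` modulo `p^2`; for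
`p = 2 (mod 3)` it is divisible by `p`.
-/

set_option autoImplicit false

namespace Pool.Agent.Results.MP_096b72_nt.QuestionTwo

open Finset

/-- The sum of the question. -/
def S (p : ℕ) : ℚ :=
  ∑ k ∈ range p, ((2 * k).choose k : ℚ) ^ 2 * ((3 * k).choose k : ℚ) / (-192) ^ k

/-- `r = s (mod p^2)`: the rational number `r - s` is `p^2` times a fraction whose denominator is
prime to `p`. -/
def CongrSq (p : ℕ) (r s : ℚ) : Prop :=
  ∃ a b : ℤ, ¬ (p : ℤ) ∣ b ∧ r - s = (p : ℚ) ^ 2 * (a / b)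

theorem congr_of_EQ {p : ℕ} [Fact p.Prime] {x y : ℚ} (h : Pool.Agent.R439.PL.EQ p 2 x y) :
    CongrSq p x y := by
  obtain ⟨-, -, z, ⟨a, b, hb, rfl⟩, hz⟩ := h
  exact ⟨a, b, hb, hz⟩

/-- Question 2: for every prime `p > 3`, if `p = 1 (mod 3)` then `S p = x^2 - 2p (mod p^2)` for all
integers `x`, `y` with `4p = x^2 + 27y^2` (and there are such integers), and if `p = 2 (mod 3)` then
`S p = 0 (mod p^2)`. -/
theorem result (p : ℕ) (hp : p.Prime) (h3 : 3 < p) :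
    (p % 3 = 1 → (∃ x y : ℤ, 4 * (p : ℤ) = x ^ 2 + 27 * y ^ 2) ∧
      ∀ x y : ℤ, 4 * (p : ℤ) = x ^ 2 + 27 * y ^ 2 → CongrSq p (S p) ((x : ℚ) ^ 2 - 2 * p)) ∧
    (p % 3 = 2 → CongrSq p (S p) 0) := by
  haveI : Fact p.Prime := ⟨hp⟩
  refine ⟨fun h1 => ⟨?_, fun x y h => ?_⟩, fun h2 => ?_⟩
  · obtain ⟨j, hj⟩ : ∃ j, p = 6 * j + 1 := by
      have h2 : p % 2 = 1 := by
        rcases hp.eq_two_or_odd with h | h
        · omega
        · exact h
      exact ⟨p / 6, by omega⟩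
    obtain ⟨L, M, h, -, -⟩ := Pool.Agent.R488.Cub.jac p j hj
    exact ⟨L, M, h⟩
  · exact congr_of_EQ (Pool.Agent.W2helper68.SP.case_one h3 h1 h)
  · exact congr_of_EQ (Pool.Agent.W2helper68.SP.case_two h3 h2)

end Pool.Agent.Results.MP_096b72_nt.QuestionTwo
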